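import Pool.Agent.TH762.MC.Law

set_option autoImplicit false

open Pool.Agent.TH762.MC

/-- Bipartite perfect matching is decided by polynomial size circuits of polylogarithmic depth
if and only if, for some constant `k ≥ 1`, such circuits can name, for any `k` thresholds, one of
the `k + 1` intervals cut out by the thresholds that does not contain the matching number.  The
same holds for constant depth, and with gates of any further kind `G`. -/
theorem Pool.Agent.Results.MP_0087d5_lc.BipartiteExclusion.result (G : ℕ → ℕ → Prop) :
    (PMC G PolyLog ↔ ∃ k, 1 ≤ k ∧ Names G PolyLog k) ∧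
    (PMC G Bounded ↔ ∃ k, 1 ≤ k ∧ Names G Bounded k) :=
  ⟨pmc_iff dc_polyLog, pmc_iff dc_bounded⟩
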