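import Pool.Agent.TH837.AP.Sem

/-!
# Matchings of almost least weight are hard for pure dynamic programs

A (min,+) program (a pure dynamic program, a tropical circuit) computes functions of the weights of
the edges of the complete bipartite graph `K_{n,n}`, one after the other; each is an input, a
constant, or the minimum or the sum of two functions computed before. For weights in `{1, ∞}` these
are the monotone Boolean circuits for the perfect matching problem together with a count of the
edges that a proof tree reads. We show that a program which approximates the least weight of a
perfect matching within the factor `ρ` needs `2 ^ (n / 2 ^ (220 ρ ^ 2)) - 1` instructions; this is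
`2 ^ (Ω n)` for each constant factor and `2 ^ (n ^ (1 - ε))` for factors up to `c √(log n)`. Even
randomised programs which succeed with the tiny probability `2 ^ (- n / 2 ^ (220 ρ ^ 2))`, and which
have to be good only if the edges of finite weight form a single perfect matching, need this size.
Dynamic programming over the subsets solves the problem exactly with `O (n 2 ^ n)` instructions.

Proof. On a perfect matching `σ` the program has a proof tree with at most `ρ n` leaves, all of them
edges of `σ`. It is cut into `K = O (ρ ^ 2)` pieces with at most `n / (4 ρ)` leaves each; the gates
at the cuts and the form of this decomposition are the skeleton. An edge of `σ` occurs on average in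
`ρ` pieces, so there is a set `R` of at most `2 ρ` pieces such that at least `n / 2 ^ (K + 1)`
edges occur exactly in the pieces of `R`, and at least half of the edges of `σ` do not occur in
the pieces of `R` at all. If `σ` and `σ'` have the same skeleton and the same `R`, take the pieces of
`σ` in `R` and the other pieces of `σ'`. This is a proof tree again, so its edges contain a perfect
matching `τ`. Let `T` be the set of the vertices where `τ` and `σ` differ. Then `τ = σ'` on `T`, the
sets `σ T` and `σ' T` are equal, `T` is large unless `σ` and `σ'` agree often, and `T` avoids the
`n / 2 ^ (K + 1)` vertices whose edges of `σ'` occur exactly in `R`. A random `σ` has such a set `T`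
only with exponentially small probability, and there are few skeletons.
-/

set_option autoImplicit false

namespace Pool.Agent.Results.MP_0087d5_lc.ConstantFactorMatching

open Pool.Agent.TH837.AP
open Pool.Agent.TH837.SC (Computes)
open scoped ENNReal

/-- Let `ρ ≥ 1` and let `f r` be a finite nonempty family of (min,+) programs with at most `s`
instructions over the weights of the pairs in `Fin n × Fin n`. Suppose that on the weights one
(for the pairs in `F`) and infinity (for the others) no `f r` returns less than the least weight of
a perfect matching, and that, if `F` is a perfect matching, at least a fraction
`2 ^ (- n / 2 ^ (220 ρ ^ 2))` of the `f r` return at most `ρ` times the least weight. Then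
`s + 1 ≥ 2 ^ (n / 2 ^ (220 ρ ^ 2))`. -/
theorem result (n : ℕ) (ρ : ℝ) (hρ : 1 ≤ ρ) (R : Type) [Fintype R] [Nonempty R]
    (f : R → (Fin n × Fin n → ℝ≥0∞) → ℝ≥0∞)
    (hf : RandApprox ρ ((2 : ℝ) ^ (-((n : ℝ) / 2 ^ (220 * ρ ^ 2)))) f) (s : ℕ)
    (hs : ∀ r, Computes (f r) s) : (2 : ℝ) ^ ((n : ℝ) / 2 ^ (220 * ρ ^ 2)) ≤ s + 1 :=
  lower hρ hf hs

end Pool.Agent.Results.MP_0087d5_lc.ConstantFactorMatching
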