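import Mathlib
import Pool.Agent.TH457.Ary.PM

/-!
# Perfect matching: tests of several edges

The input is the list of the `m` edges of a simple graph with `2 ⌊m / 2⌋` vertices. A test sees up to
`w` entries of the list, each of them through an arbitrary function with `m ^ 2` values; as there are
fewer edges, these are the arbitrary predicates of `w` entries. We show that random formulas over
such tests (with arbitrary functions of two bits as gates) and random branching programs over such
tests need `m ^ 2 / (500 w ^ 2)` leaves and `m ^ 2 / (1200 w ^ 2)` nodes, if they detect perfect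
matchings with error probability at most `1 / 3`. So these bounds are superlinear in the size of the
graph, also for sparse graphs and even if each test sees many edges, `w = o(√m)`.

Proof. Let `2 ^ k` be about `√m / 2`. The vertices are the ones of a cycle cover problem: left vertices
`s_i`, `y_v` for `v < 2 ^ k`, `b_j` for `j < k`, and right vertices with the same names; there is an
edge between the two vertices of each name (such a vertex is not used by the cycles). There are edges `y_v b_j` if
the `j`-th bit of `v` is one, and data edges `s_i y_(v_i)`. Two entries of the list ask for the `j`-th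
bit of `v_i` by edges `A s_i` and `b_j Z`, where `A` and `Z` are two more vertices. So two entries can
ask for about `m k / 3` bits of the other entries. If a formula has `r` leaves which see the two
entries, then only `2 (16 q ^ (w - 1)) ^ r`, `q = m ^ 2`, functions of them arise when the others are
fixed.
-/

set_option autoImplicit false

namespace Pool.Agent.Results.MP_0087d5_lc.SeveralEdges

open Pool.Agent.TH697.Form (IsProb)
open Pool.Agent.TH697.Row (ApproximatesOn)
open Pool.Agent.TH457.Ary Pool.Agent.TH457.Ary.Tri Pool.Agent.TH457.Ary.PM

theorem result : ∀ m w : ℕ, 1024 ≤ m → 1 ≤ w →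
    ∀ (Ω : Type) [Fintype Ω] (μ : Ω → ℝ), IsProb μ →
      (∀ F : Ω → Fml (Fin m) (fun _ => Edge (2 * (m / 2))) w (m ^ 2),
        ApproximatesOn μ (fun ω => (F ω).eval) Simple matching →
        (m : ℝ) ^ 2 ≤ 500 * w ^ 2 * expSize μ F) ∧
      (∀ (s : ℕ) (B : Ω → Program (Fin m) (fun _ => Edge (2 * (m / 2))) w (m ^ 2) s),
        ApproximatesOn μ (fun ω => (B ω).eval) Simple matching →
        (m : ℝ) ^ 2 ≤ 1200 * w ^ 2 * s) :=
  fun _ _ hm hw _ _ μ hμ => ⟨fun F hF => formula_bound hm hw μ hμ F hF,
    fun s B hB => program_bound hm hw μ hμ s B hB⟩

end Pool.Agent.Results.MP_0087d5_lc.SeveralEdges
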