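import Pool.Agent.TH708.Shr.Pm

/-!
# Circuits for perfect matchings must have AND gates whose inputs share many pairs

Fix `k` disjoint pairs of vertices, `k` at most a third of the number of vertices; call them
tracked. We consider circuits with negations, with AND and OR gates of any fan-in, of any depth,
whose leaves are the tracked pairs, their negations, and ARBITRARY predicates of the other pairs
(so everything about the graph besides the `k` tracked pairs is free of charge). An AND gate shares
a tracked pair if at least two of its inputs depend on it (there are paths to it from two different
inputs of the gate). The theorem says that a circuit with `s` gates which decides whether a graph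
has a perfect matching (it is enough that it does so for bipartite graphs with given sides) shares
on some path from the output at least `k / 2 ^ 26 - log s - 1` tracked pairs. So

* circuits without sharing, or with at most `k / 2 ^ 27` shared tracked pairs on each path, have
  size `2 ^ (Ω n)` (and `2 ^ (O n)` is the truth: dynamic programming over the subsets of one side
  gives such circuits without any sharing);
* in a circuit of size `s` and AND-depth `d` some AND gate shares `Ω ((n - O (log s)) / d)` tracked
  pairs. So a circuit of NC type (size `2 ^ (o n)`, depth polylogarithmic in `n`) for the perfect
  matching problem has, for every choice of the `k = ⌊2 n / 3⌋` disjoint pairs, an AND gate which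
  shares `n / polylog n` of them (for fan-in two: both inputs of the gate depend on all of these
  pairs), while a circuit which splits the graph into parts and treats them independently shares
  none.

Proof. A rectangle argument with a random pairing of the tracked pairs. Take a random injective
assignment of partners to a small part of the tracked pairs; for each couple `e`, `e'` of partners
two new vertices `p`, `q` are joined to the ends, so that this part has a perfect matching if and
only if `e` or `e'` is an edge; the rest of the graph is a complete bipartite graph. A proof tree of
an input in which exactly one pair of each couple is an edge is descended to an AND gate and a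
number `j`, such that the first `j` inputs of the gate see between one sixth and five sixths of the
couples. All side conditions on the way down, and the other inputs of the gate, read only pairs
outside of these or among the `m` pairs that are shared on the path. So the inputs for which the
descent ends at the same place can be recombined, up to the `m` shared pairs; this forces the
couples to be almost unseparated by the pairs which are read by the first `j` inputs. For a random
pairing this does not happen for any of the at most `s ^ 2` sets of pairs.
-/

set_option autoImplicit false

namespace Pool.Agent.Results.MP_0087d5_lc.SharedPairs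

open Pool.Agent.TH708.Shr

open Classical in
/-- Let `3 k ≤ 2 n` and let `(a i, b i)`, for `i < k`, be pairs of a left and a right vertex, no two
of them with a common vertex, of the graphs on `Fin n ⊕ Fin n`. Let `C` be a circuit whose nodes
are literals of these pairs, predicates `φ` of graphs which do not depend on these pairs, and AND
and OR gates of any fan-in, such that for each graph all of whose edges join the left to the right
vertices the node `o` is true if and only if the graph has a perfect matching. If at most `m` of
the pairs are shared by AND gates on each path from `o` then `k ≤ 2 ^ 26 (m + log s + 1)`, for the
number `s` of nodes. If the AND-depth of `o` is `dep o`, and each AND gate shares at most `μ` of the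
pairs, then `k ≤ 2 ^ 26 (μ dep o + log s + 1)`. -/
theorem result {n k s : ℕ} (hk : 3 * k ≤ 2 * n) (a b : Fin k → Fin n)
    (ha : Function.Injective a) (hb : Function.Injective b)
    (C : Net (SimpleGraph (Fin n ⊕ Fin n)) k s) (o : Fin s)
    (hfree : ∀ g φ, C g = Kind.fn φ → ∀ G G' : SimpleGraph (Fin n ⊕ Fin n),
      (∀ u v, (∀ i, s(u, v) ≠ s(Sum.inl (a i), Sum.inr (b i))) → (G.Adj u v ↔ G'.Adj u v)) →
      (φ G ↔ φ G'))
    (hdec : ∀ G : SimpleGraph (Fin n ⊕ Fin n), G ≤ completeBipartiteGraph (Fin n) (Fin n) →
      (Val C G (fun i => decide (G.Adj (Sum.inl (a i)) (Sum.inr (b i)))) o ↔
        ∃ M : G.Subgraph, M.IsPerfectMatching)) :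
    (∀ m, SharesLe C o m → k ≤ 2 ^ 26 * (m + Nat.log 2 s + 1)) ∧
    ∀ (dep : Fin s → ℕ) (μ : ℕ),
      (∀ g l, C g = Kind.and l → ∀ c ∈ l, dep c < dep g) →
      (∀ g l, C g = Kind.or l → ∀ c ∈ l, dep c ≤ dep g) →
      (∀ g, (shared C g).ncard ≤ μ) → k ≤ 2 ^ 26 * (μ * dep o + Nat.log 2 s + 1) :=
  ⟨fun m hm => Pm.lower hk a b ha hb C o hfree hdec m hm,
    fun dep μ h1 h2 h3 =>
      Pm.lower hk a b ha hb C o hfree hdec _ (sharesLe_of_depth dep μ h1 h2 h3)⟩

end Pool.Agent.Results.MP_0087d5_lc.SharedPairs
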